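import Pool.Agent.H31.DD.Fin

/-!
# SO FinT: the bound of DD with the threshold `(999/1000)²`

If `(999/1000)² n < w(w(n))`, then `∑_(p ∣ n w(n)) 1 / p ≥ 1998/1000` (AM-GM); the rest is the proof of
`Pool.Agent.H31.DD.main`, with `exp 1997` in place of `exp 1999`.
-/

set_option autoImplicit false

namespace Pool.Agent.H31.SO

open Finset
open Pool.Agent.H97.WIter (wf gf)
open Pool.Agent.H31.DD

theorem le_sum (n : ℕ) (hn : 2 ≤ n) (h : 998001 * n < 1000000 * wf (wf n)) :
    (1998 / 1000 : ℝ) ≤ ∑ p ∈ (n * wf n).primeFactors, (1 : ℝ) / p := by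
  have hn0 : (0 : ℚ) < n := by exact_mod_cast (by omega : 0 < n)
  have hcop := Pool.Agent.H97.WIter.wf_coprime hn
  have h1 : (wf (wf n) : ℚ) = n * gf n * gf (wf n) := by
    rw [Pool.Agent.H97.WIter.wf_cast, Pool.Agent.H97.WIter.wf_cast]
  have h2 : (998001 : ℚ) * n ≤ 1000000 * (n * gf n * gf (wf n)) := by
    rw [← h1]
    exact_mod_cast h.le
  have h3 : 998001 / 1000000 ≤ gf n * gf (wf n) := by
    have : (n : ℚ) * (998001 / 1000000) ≤ n * (gf n * gf (wf n)) := by linarith
    exact le_of_mul_le_mul_left this hn0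
  have h4 := Pool.Agent.H97.WIter.gf_le n
  have h5 := Pool.Agent.H97.WIter.gf_le (wf n)
  have h6 : 0 < gf n := Pool.Agent.H97.WIter.gf_pos hn
  have h7 : 0 < gf (wf n) := by
    by_contra hc
    push Not at hc
    have : gf n * gf (wf n) ≤ 0 := mul_nonpos_of_nonneg_of_nonpos h6.le hc
    linarith
  have h8 : (1998 / 1000 : ℚ) ≤ gf n + gf (wf n) := by
    nlinarith [sq_nonneg (gf n - gf (wf n))]
  have h9 : (1998 / 1000 : ℚ) ≤ ∑ p ∈ (n * wf n).primeFactors, (1 : ℚ) / p := by
    rw [hcop.primeFactors_mul, sum_union hcop.disjoint_primeFactors]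
    linarith
  have h10 : ((1998 / 1000 : ℚ) : ℝ) ≤
      ((∑ p ∈ (n * wf n).primeFactors, (1 : ℚ) / p : ℚ) : ℝ) := by
    exact_mod_cast h9
  push_cast at h10
  exact h10

open Classical in
theorem mainT : ∃ N0 : ℕ, ∀ N : ℕ, N0 ≤ N →
    (((Icc 1 N).filter (fun n => 998001 * n < 1000000 * wf (wf n))).card : ℝ) ≤
      4 * N / 10 ^ 80 := by
  obtain ⟨δ, hδd⟩ : ∃ δ : ℝ, δ = 1 / (15 * 10 ^ 80) := ⟨_, rfl⟩
  have hδ : 0 < δ := by rw [hδd]; positivity
  have hδ1 : δ ≤ 1 := by rw [hδd]; norm_num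
  obtain ⟨z, hzd⟩ : ∃ z : ℕ, z = 10 ^ 85 := ⟨_, rfl⟩
  have hz1 : 1 ≤ z := by rw [hzd]; norm_num
  have hzR : (z : ℝ) = 10 ^ 85 := by rw [hzd]; norm_num
  obtain ⟨x, hxd⟩ : ∃ x : ℕ → ℝ, x = fun p : ℕ => Real.exp (1000 / p) - 1 := ⟨_, rfl⟩
  have hx : ∀ p, 0 ≤ x p := by
    intro p
    rw [hxd]
    have : (1 : ℝ) ≤ Real.exp (1000 / p) := Real.one_le_exp (by positivity)
    simp only
    linarith
  obtain ⟨N1, hN1⟩ := bad_le δ hδ hδ1
  obtain ⟨N2, hN2⟩ := inner_le δ hδ z x hx
  obtain ⟨N3, hN3⟩ := ws_tail δ hδ z hz1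
  obtain ⟨N4, hN4⟩ := tail_far (1 / 2000) (by norm_num)
  obtain ⟨N5, hN5⟩ : ∃ N5 : ℕ, ∀ N : ℕ, N5 ≤ N → (z : ℝ) ≤ Real.log N := by
    have h2 : Filter.Tendsto (fun N : ℕ => Real.log (N : ℝ)) Filter.atTop Filter.atTop :=
      Real.tendsto_log_atTop.comp tendsto_natCast_atTop_atTop
    exact Filter.eventually_atTop.1 (h2.eventually_ge_atTop (z : ℝ))
  refine ⟨max 1 (max N1 (max N2 (max N3 (max N4 N5)))), fun N hN => ?_⟩
  simp only [max_le_iff] at hN
  obtain ⟨hNp, hNN1, hNN2, hNN3, hNN4, hNN5⟩ := hN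
  have hN0 : (0 : ℝ) < N := by exact_mod_cast hNp
  have hlog : (z : ℝ) ≤ Real.log N := hN5 N hNN5
  have hlog1 : 1 ≤ Real.log N := le_trans (by exact_mod_cast hz1) hlog
  have hzL : z ≤ ⌊Real.log N⌋₊ := Nat.le_floor hlog
  set L := ⌊Real.log N⌋₊ with hL
  set y := yy δ N with hy
  -- the three sets
  set E := (Icc 1 N).filter (fun n => 998001 * n < 1000000 * wf (wf n)) with hE
  set B := (Icc 1 N).filter (fun n => ¬ Good N y n) with hB
  set G := (Icc 1 N).filter (fun n => Good N y n) with hG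
  set E1 := G.filter (fun n => (1 : ℝ) ≤ Real.exp (-1997) * FF z x n) with hE1
  set E2 := G.filter (fun n => (1 : ℝ) ≤ 2000 * rcp z L (n * wf n)) with hE2
  have hsub : E ⊆ B ∪ (E1 ∪ E2) := by
    intro n hn
    rw [hE, mem_filter] at hn
    by_cases hg : Good N y n
    · rw [mem_union, mem_union]
      right
      have hnG : n ∈ G := by rw [hG, mem_filter]; exact ⟨hn.1, hg⟩
      obtain ⟨hn1, hnN⟩ := mem_Icc.1 hn.1
      have hn2 : 2 ≤ n := by
        rcases Nat.lt_or_ge n 2 with h | h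
        · have : n = 1 := by omega
          subst this
          have h1 : wf 1 = 0 := by simp [Pool.Agent.H97.WIter.wf]
          have h2 : wf 0 = 0 := by simp [Pool.Agent.H97.WIter.wf]
          have := hn.2
          rw [h1, h2] at this
          omega
        · exact h
      have hw0 := Pool.Agent.H97.WIter.wf_pos hn2
      have hne : n * wf n ≠ 0 := Nat.mul_ne_zero (by omega) (by omega)
      have h3 := le_sum n hn2 hn.2
      rw [split_sum z L (n * wf n) hzL] at h3
      have h4 := hN4 N hNN4 n hn2 hnN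
      by_cases hr : rcp z L (n * wf n) ≤ 1 / 2000
      · left
        rw [hE1, mem_filter]
        refine ⟨hnG, ?_⟩
        rw [hxd, FF_eq_exp z n hne, ← Real.exp_add]
        apply Real.one_le_exp
        have h5 : (1997 / 1000 : ℝ) ≤
            ∑ p ∈ (n * wf n).primeFactors.filter (fun p => p ≤ z), (1 : ℝ) / p := by
          linarith
        linarith
      · right
        rw [hE2, mem_filter]
        refine ⟨hnG, ?_⟩
        push Not at hr
        linarith
    · rw [mem_union]
      left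
      rw [hB, mem_filter]
      exact ⟨hn.1, hg⟩
  have hcard : (E.card : ℝ) ≤ B.card + (E1.card + E2.card) := by
    have h1 := card_le_card hsub
    have h2 := card_union_le B (E1 ∪ E2)
    have h3 := card_union_le E1 E2
    exact_mod_cast h1.trans (h2.trans (by omega))
  -- bad numbers
  have hBle : (B.card : ℝ) ≤ N / (3 * 10 ^ 80) := by
    refine (hN1 N hNN1).trans (le_of_eq ?_)
    rw [hδd]
    ring
  -- the weighted count
  have hcount : ∀ f : ℕ → ℝ, (∀ n, 0 ≤ f n) → ∀ F ⊆ G, (∀ n ∈ F, 1 ≤ f n) →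
      (F.card : ℝ) * (Real.log N / 2) ≤ WS N y f := by
    intro f hf F hFG hF1
    refine le_trans ?_ (wt_le N y f hf)
    apply mul_le_mul_of_nonneg_right _ (by linarith)
    calc (F.card : ℝ) = ∑ n ∈ F, (1 : ℝ) := by simp
      _ ≤ ∑ n ∈ F, f n := sum_le_sum hF1
      _ ≤ ∑ n ∈ G, f n := sum_le_sum_of_subset_of_nonneg hFG (fun n _ _ => hf n)
  -- the main part
  have hE1le : (E1.card : ℝ) ≤ 3 * N / 10 ^ 80 := by
    set c := Real.exp (-1997) with hc
    have hc0 : 0 < c := Real.exp_pos _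
    have h1 := hcount (fun n => c * FF z x n)
      (fun n => mul_nonneg hc0.le (FF_nonneg z n x hx)) E1 (filter_subset _ _)
      (fun n hn => (mem_filter.1 hn).2)
    have h2 : WS N y (fun n => c * FF z x n) ≤
        c * (2 * N * ((1 + Real.log N) * ∏ p ∈ Pz z, (1 + 2 * x p / p))) := by
      have h3 : WS N y (fun n => c * FF z x n) ≤
          ∑ m ∈ Icc 1 N, c * (2 * ((N : ℝ) / m) * GG z x m) := by
        unfold WS
        apply sum_le_sum
        intro m hm
        have h4 := mul_le_mul_of_nonneg_left (hN2 N hNN2 m hm) hc0.le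
        rw [mul_sum] at h4
        refine le_trans (le_of_eq ?_) h4
        apply sum_congr rfl
        intro P _
        ring
      refine h3.trans ?_
      have h5 : ∑ m ∈ Icc 1 N, c * (2 * ((N : ℝ) / m) * GG z x m) =
          c * (2 * N * ∑ m ∈ Icc 1 N, GG z x m / m) := by
        rw [mul_sum, mul_sum]
        apply sum_congr rfl
        intro m _
        ring
      rw [h5]
      apply mul_le_mul_of_nonneg_left _ hc0.le
      apply mul_le_mul_of_nonneg_left (mean_le z x hx N hNp) (by positivity)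
    have h6 : c * ∏ p ∈ Pz z, (1 + 2 * x p / p) ≤ 9 * (1 / (24 * 10 ^ 80)) := by
      have e1 : c = Real.exp 2 * Real.exp (-1999) := by
        rw [hc, ← Real.exp_add]
        norm_num
      have e2 : Real.exp 2 ≤ 9 := by
        have e3 : Real.exp 2 = Real.exp 1 ^ 2 := by
          rw [← Real.exp_nat_mul]
          norm_num
        rw [e3]
        have e4 : Real.exp 1 ≤ 3 := by
          have := Real.exp_one_lt_d9
          linarith
        have e5 := pow_le_pow_left₀ (Real.exp_pos 1).le e4 2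
        linarith
      have e6 := num_le80 z
      have e7 : 0 ≤ Real.exp (-1999) *
          ∏ p ∈ Pz z, (1 + 2 * (Real.exp (1000 / (p : ℝ)) - 1) / p) := by
        apply mul_nonneg (Real.exp_pos _).le
        apply prod_nonneg
        intro p _
        have e8 := hx p
        rw [hxd] at e8
        have : 0 ≤ 2 * (Real.exp (1000 / (p : ℝ)) - 1) / p :=
          div_nonneg (by simpa using e8) (Nat.cast_nonneg _)
        linarith
      rw [e1, mul_assoc, hxd]
      exact mul_le_mul e2 e6 e7 (by norm_num)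
    have h7 : (E1.card : ℝ) * (Real.log N / 2) ≤
        2 * N * (1 + Real.log N) * (9 * (1 / (24 * 10 ^ 80))) := by
      refine (h1.trans h2).trans ?_
      have h8 : c * (2 * N * ((1 + Real.log N) * ∏ p ∈ Pz z, (1 + 2 * x p / p))) =
          2 * N * (1 + Real.log N) * (c * ∏ p ∈ Pz z, (1 + 2 * x p / p)) := by ring
      rw [h8]
      exact mul_le_mul_of_nonneg_left h6 (by positivity)
    have h9 : 2 * N * (1 + Real.log N) * (9 * (1 / (24 * 10 ^ 80))) ≤
        3 * N / 10 ^ 80 * (Real.log N / 2) := by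
      have : 2 * N * (1 + Real.log N) ≤ 2 * N * (2 * Real.log N) := by
        apply mul_le_mul_of_nonneg_left _ (by positivity)
        linarith
      have h10 : 2 * N * (1 + Real.log N) * (9 * (1 / (24 * 10 ^ 80))) ≤
          2 * N * (2 * Real.log N) * (9 * (1 / (24 * 10 ^ 80))) :=
        mul_le_mul_of_nonneg_right this (by positivity)
      refine h10.trans (le_of_eq ?_)
      ring
    have h11 : (E1.card : ℝ) * (Real.log N / 2) ≤ 3 * N / 10 ^ 80 * (Real.log N / 2) :=
      h7.trans h9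
    exact le_of_mul_le_mul_right h11 (by linarith)
  -- the tail
  have hE2le : (E2.card : ℝ) ≤ N / (3 * 10 ^ 80) := by
    have h1 := hcount (fun n => 2000 * rcp z L (n * wf n))
      (fun n => mul_nonneg (by norm_num) (rcp_nonneg _ _ _)) E2 (filter_subset _ _)
      (fun n hn => (mem_filter.1 hn).2)
    have h2 : WS N y (fun n => 2000 * rcp z L (n * wf n)) =
        2000 * WS N y (fun n => rcp z L (n * wf n)) := by
      unfold WS
      rw [mul_sum]
      apply sum_congr rfl
      intro m _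
      rw [mul_sum]
      apply sum_congr rfl
      intro P _
      ring
    have h3 := hN3 N hNN3
    have h4 : (E2.card : ℝ) * (Real.log N / 2) ≤
        2000 * (4 * N * (1 + Real.log N) / z) := by
      refine h1.trans ?_
      rw [h2]
      exact mul_le_mul_of_nonneg_left h3 (by norm_num)
    have h5 : 2000 * (4 * N * (1 + Real.log N) / z) ≤ N / (3 * 10 ^ 80) * (Real.log N / 2) := by
      rw [hzR]
      have : N * (1 + Real.log N) ≤ N * (2 * Real.log N) := by
        apply mul_le_mul_of_nonneg_left _ hN0.le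
        linarith
      have h6 : 0 ≤ N * Real.log N := by positivity
      have h7 : 2000 * (4 * N * (1 + Real.log N) / 10 ^ 85) =
          (N * (1 + Real.log N)) * (8000 / 10 ^ 85) := by ring
      have h8 : N / (3 * 10 ^ 80) * (Real.log N / 2) =
          (N * Real.log N) * (1 / (6 * 10 ^ 80)) := by ring
      rw [h7, h8]
      calc (N * (1 + Real.log N)) * (8000 / 10 ^ 85) ≤ (N * (2 * Real.log N)) * (8000 / 10 ^ 85) :=
            mul_le_mul_of_nonneg_right this (by norm_num)
        _ = (N * Real.log N) * (16000 / 10 ^ 85) := by ring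
        _ ≤ (N * Real.log N) * (1 / (6 * 10 ^ 80)) := by
            apply mul_le_mul_of_nonneg_left _ h6
            norm_num
    exact le_of_mul_le_mul_right (h4.trans h5) (by linarith)
  have h1 : (N : ℝ) / (3 * 10 ^ 80) + (3 * N / 10 ^ 80 + N / (3 * 10 ^ 80)) ≤ 4 * N / 10 ^ 80 := by
    have h2 : (N : ℝ) / (3 * 10 ^ 80) + (3 * N / 10 ^ 80 + N / (3 * 10 ^ 80)) =
        N * ((1 / 3 + (3 + 1 / 3)) / 10 ^ 80) := by ring
    have h3 : 4 * (N : ℝ) / 10 ^ 80 = N * (4 / 10 ^ 80) := by ring
    rw [h2, h3]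
    exact mul_le_mul_of_nonneg_left (by norm_num) hN0.le
  linarith

end Pool.Agent.H31.SO
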