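import Pool.Agent.H31.SO.FinT

/-!
# SO Orb: all cycles of `w` and every orbit of `w` have upper density at most `10^(-76)`

Let `P` be the set of the periodic points of `w`, `O` the orbit of `m`, `S = P ∪ O`. The set `E1` of the
`z ∈ O` which are not periodic but have `w(z)` periodic has at most one element, and `w` is injective on
`S` outside `E1`. So `T = w ∘ w` maps `S` into `S` and is injective outside two elements; with `a(N)` the
number of the `n ≤ N` in `S`, `a(N) ≤ a(t N) + 3 + #{n ≤ N : T(n) > t n}`, `t = (999/1000)²`.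
-/

set_option autoImplicit false

namespace Pool.Agent.H31.SO

open Finset
open Pool.Agent.H97.WIter (wf)

open Classical in
/-- the step: `w ∘ w` is injective on `S` outside at most two elements -/
theorem step (S : Set ℕ) (hS : ∀ n ∈ S, wf n ∈ S) (E : Set ℕ) (hE : E.Subsingleton)
    (hinj : ∀ x ∈ S, ∀ y ∈ S, x ∉ E → y ∉ E → wf x = wf y → x = y) (N M : ℕ) :
    ((Icc 1 N).filter (fun n => n ∈ S ∧ wf (wf n) ≤ M)).card ≤
      ((Icc 1 M).filter (fun n => n ∈ S)).card + 3 := by
  set A := (Icc 1 N).filter (fun n => n ∈ S ∧ wf (wf n) ≤ M) with hA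
  set A1 := A.filter (fun n => n ∈ E) with hA1
  set A2 := A.filter (fun n => n ∉ E ∧ wf n ∈ E) with hA2
  set A3 := A.filter (fun n => n ∉ E ∧ wf n ∉ E) with hA3
  have hAS : ∀ n ∈ A, n ∈ S ∧ wf (wf n) ≤ M := fun n hn => (mem_filter.1 hn).2
  have h1 : A1.card ≤ 1 := by
    rw [card_le_one]
    intro a ha b hb
    exact hE (mem_filter.1 ha).2 (mem_filter.1 hb).2
  have h2 : A2.card ≤ 1 := by
    rw [card_le_one]
    intro a ha b hb
    rw [hA2, mem_filter] at ha hb
    exact hinj a (hAS a ha.1).1 b (hAS b hb.1).1 ha.2.1 hb.2.1 (hE ha.2.2 hb.2.2)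
  have h3 : A3.card ≤ ((Icc 1 M).filter (fun n => n ∈ S)).card + 1 := by
    have h4 : A3.card ≤ (insert 0 ((Icc 1 M).filter (fun n => n ∈ S))).card := by
      apply card_le_card_of_injOn (fun n => wf (wf n))
      · intro n hn
        rw [mem_coe, hA3, mem_filter] at hn
        obtain ⟨h5, h6⟩ := hAS n hn.1
        rw [mem_coe, mem_insert, mem_filter, mem_Icc]
        rcases Nat.eq_zero_or_pos (wf (wf n)) with h | h
        · exact Or.inl h
        · exact Or.inr ⟨⟨h, h6⟩, hS _ (hS _ h5)⟩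
      · intro x hx y hy hxy
        rw [mem_coe, hA3, mem_filter] at hx hy
        have hx1 := (hAS x hx.1).1
        have hy1 := (hAS y hy.1).1
        exact hinj x hx1 y hy1 hx.2.1 hy.2.1
          (hinj _ (hS x hx1) _ (hS y hy1) hx.2.2 hy.2.2 hxy)
    exact h4.trans (card_insert_le _ _)
  have h4 : A ⊆ A1 ∪ (A2 ∪ A3) := by
    intro n hn
    rw [mem_union, mem_union]
    by_cases h5 : n ∈ E
    · exact Or.inl (mem_filter.2 ⟨hn, h5⟩)
    · by_cases h6 : wf n ∈ E
      · exact Or.inr (Or.inl (mem_filter.2 ⟨hn, h5, h6⟩))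
      · exact Or.inr (Or.inr (mem_filter.2 ⟨hn, h5, h6⟩))
  have h5 := card_le_card h4
  have h6 := card_union_le A1 (A2 ∪ A3)
  have h7 := card_union_le A2 A3
  omega

open Classical in
/-- a set on which `w ∘ w` is almost injective is sparse -/
theorem sparse : ∃ N0 : ℕ, ∀ N : ℕ, N0 ≤ N → ∀ S : Set ℕ, (∀ n ∈ S, wf n ∈ S) →
    ∀ E : Set ℕ, E.Subsingleton →
      (∀ x ∈ S, ∀ y ∈ S, x ∉ E → y ∉ E → wf x = wf y → x = y) →
      (((Icc 1 N).filter (fun n => n ∈ S)).card : ℝ) ≤ N / 10 ^ 76 := by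
  obtain ⟨N0, hN0⟩ := mainT
  obtain ⟨N1, hN1⟩ : ∃ N1 : ℕ, N1 = max N0 (3 * 10 ^ 80) := ⟨_, rfl⟩
  refine ⟨N1 * 10 ^ 77, fun N hN S hS E hE hinj => ?_⟩
  have key : ∀ N : ℕ, (((Icc 1 N).filter (fun n => n ∈ S)).card : ℝ) ≤
      3 / 10 ^ 77 * N + N1 := by
    intro N
    induction N using Nat.strong_induction_on with
    | _ N ih =>
      rcases Nat.lt_or_ge N N1 with h | h
      · have h1 : ((Icc 1 N).filter (fun n => n ∈ S)).card ≤ N := by
          refine (card_filter_le _ _).trans ?_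
          rw [Nat.card_Icc, Nat.add_sub_cancel]
        have h2 : (((Icc 1 N).filter (fun n => n ∈ S)).card : ℝ) ≤ N := by exact_mod_cast h1
        have h3 : (N : ℝ) ≤ N1 := by exact_mod_cast h.le
        have h4 : (0 : ℝ) ≤ 3 / 10 ^ 77 * N := by positivity
        linarith
      · have hNN0 : N0 ≤ N := le_trans (by rw [hN1]; exact le_max_left _ _) h
        have hN80 : 3 * 10 ^ 80 ≤ N := le_trans (by rw [hN1]; exact le_max_right _ _) h
        have hNpos : 0 < N := lt_of_lt_of_le (by norm_num) hN80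
        obtain ⟨M, hM⟩ : ∃ M : ℕ, M = 998001 * N / 1000000 := ⟨_, rfl⟩
        have hMN : M < N := by
          rw [hM, Nat.div_lt_iff_lt_mul (by norm_num)]
          omega
        have hMt : (M : ℝ) ≤ 998001 / 1000000 * N := by
          have h1 : M * 1000000 ≤ 998001 * N := by
            rw [hM]
            exact Nat.div_mul_le_self _ _
          have h2 : (M : ℝ) * 1000000 ≤ 998001 * N := by exact_mod_cast h1
          linarith
        have h1 := ih M hMN
        have h2 := step S hS E hE hinj N M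
        have h3 := hN0 N hNN0
        have h4 : (Icc 1 N).filter (fun n => n ∈ S) ⊆
            (Icc 1 N).filter (fun n => n ∈ S ∧ wf (wf n) ≤ M) ∪
              (Icc 1 N).filter (fun n => 998001 * n < 1000000 * wf (wf n)) := by
          intro n hn
          rw [mem_filter] at hn
          rw [mem_union, mem_filter, mem_filter]
          by_cases h5 : wf (wf n) ≤ M
          · exact Or.inl ⟨hn.1, hn.2, h5⟩
          · right
            refine ⟨hn.1, ?_⟩
            have h6 := (mem_Icc.1 hn.1).2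
            push Not at h5
            rw [hM, Nat.div_lt_iff_lt_mul (by norm_num)] at h5
            omega
        have h5 := (card_le_card h4).trans (card_union_le _ _)
        have h6 : (((Icc 1 N).filter (fun n => n ∈ S)).card : ℝ) ≤
            (((Icc 1 M).filter (fun n => n ∈ S)).card : ℝ) + 3 +
              (((Icc 1 N).filter (fun n => 998001 * n < 1000000 * wf (wf n))).card : ℝ) := by
          exact_mod_cast h5.trans (Nat.add_le_add_right h2 _)
        have h7 : (3 : ℝ) ≤ N / 10 ^ 80 := by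
          rw [le_div_iff₀ (by positivity)]
          exact_mod_cast hN80
        have h8 : 4 * (N : ℝ) / 10 ^ 80 + N / 10 ^ 80 = 5 / 10 ^ 80 * N := by ring
        have h9 : (3 : ℝ) / 10 ^ 77 * M + 5 / 10 ^ 80 * N ≤ 3 / 10 ^ 77 * N := by
          have h10 : (3 : ℝ) / 10 ^ 77 * M ≤ 3 / 10 ^ 77 * (998001 / 1000000 * N) :=
            mul_le_mul_of_nonneg_left hMt (by positivity)
          have h11 : (3 : ℝ) / 10 ^ 77 * (998001 / 1000000 * N) + 5 / 10 ^ 80 * N =
              (3 / 10 ^ 77 * (998001 / 1000000) + 5 / 10 ^ 80) * N := by ring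
          have h12 : (3 : ℝ) / 10 ^ 77 * (998001 / 1000000) + 5 / 10 ^ 80 ≤ 3 / 10 ^ 77 := by
            norm_num
          have h13 := mul_le_mul_of_nonneg_right h12 (Nat.cast_nonneg (α := ℝ) N)
          linarith
        linarith
  have h1 := key N
  have h2 : (N1 : ℝ) ≤ 1 / 10 ^ 77 * N := by
    have h3 : (N1 : ℝ) * 10 ^ 77 ≤ N := by exact_mod_cast hN
    rw [one_div, inv_mul_eq_div, le_div_iff₀ (by positivity)]
    exact h3
  have h3 : (N : ℝ) / 10 ^ 76 = 10 / 10 ^ 77 * N := by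
    have : (10 : ℝ) ^ 77 = 10 ^ 76 * 10 := by ring
    rw [this]
    field_simp
  rw [h3]
  have h4 : (0 : ℝ) ≤ N := Nat.cast_nonneg N
  have h5 : (3 : ℝ) / 10 ^ 77 * N + 1 / 10 ^ 77 * N ≤ 10 / 10 ^ 77 * N := by
    have h6 : (3 : ℝ) / 10 ^ 77 * N + 1 / 10 ^ 77 * N = (3 / 10 ^ 77 + 1 / 10 ^ 77) * N := by ring
    rw [h6]
    exact mul_le_mul_of_nonneg_right (by norm_num) h4
  linarith

/-- periodic points -/
def Per : Set ℕ := {n | ∃ k, 1 ≤ k ∧ wf^[k] n = n}

/-- the orbit of `m` -/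
def Orb (m : ℕ) : Set ℕ := {n | ∃ k, wf^[k] m = n}

theorem wf_per {n : ℕ} (h : n ∈ Per) : wf n ∈ Per := by
  obtain ⟨k, hk, h⟩ := h
  exact ⟨k, hk, by rw [← Function.iterate_succ_apply, Function.iterate_succ_apply', h]⟩

theorem iter_per {n : ℕ} (h : n ∈ Per) (i : ℕ) : wf^[i] n ∈ Per := by
  induction i with
  | zero => exact h
  | succ i ih =>
    rw [Function.iterate_succ_apply']
    exact wf_per ih

theorem per_inj {x y : ℕ} (hx : x ∈ Per) (hy : y ∈ Per) (h : wf x = wf y) : x = y := by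
  obtain ⟨k, hk, h1⟩ := hx
  obtain ⟨l, hl, h2⟩ := hy
  have e1 : wf^[k * l] x = x := by
    have h3 : Function.IsPeriodicPt wf k x := h1
    exact h3.mul_const l
  have e2 : wf^[k * l] y = y := by
    have h3 : Function.IsPeriodicPt wf l y := h2
    exact h3.const_mul k
  obtain ⟨j, hj⟩ : ∃ j, k * l = j + 1 := ⟨k * l - 1, by
    have : 1 ≤ k * l := Nat.mul_pos hk hl
    omega⟩
  rw [hj, Function.iterate_succ_apply] at e1 e2
  rw [← e1, ← e2, h]

theorem union_inj (m : ℕ) : ∃ E : Set ℕ, E.Subsingleton ∧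
    ∀ x ∈ Per ∪ Orb m, ∀ y ∈ Per ∪ Orb m, x ∉ E → y ∉ E → wf x = wf y → x = y := by
  refine ⟨{z | z ∈ Orb m ∧ z ∉ Per ∧ wf z ∈ Per}, ?_, ?_⟩
  · -- at most one element
    have hlt : ∀ a b : ℕ, a < b → wf^[b] m ∉ Per → wf (wf^[a] m) ∈ Per → False := by
      intro a b hab h1 h2
      apply h1
      have h3 : wf^[b] m = wf^[b - (a + 1)] (wf (wf^[a] m)) := by
        rw [← Function.iterate_succ_apply' wf a m, ← Function.iterate_add_apply]
        congr 1
        omega
      rw [h3]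
      exact iter_per h2 _
    rintro z ⟨⟨a, ha⟩, hz1, hz2⟩ z' ⟨⟨b, hb⟩, hz1', hz2'⟩
    rcases lt_trichotomy a b with h | h | h
    · exact (hlt a b h (by rw [hb]; exact hz1') (by rw [ha]; exact hz2)).elim
    · rw [← ha, ← hb, h]
    · exact (hlt b a h (by rw [ha]; exact hz1) (by rw [hb]; exact hz2')).elim
  · -- injectivity
    have hlt : ∀ a b : ℕ, a < b → wf (wf^[a] m) = wf (wf^[b] m) → wf (wf^[a] m) ∈ Per := by
      intro a b hab h
      refine ⟨b - a, by omega, ?_⟩
      rw [← Function.iterate_succ_apply' wf a m, ← Function.iterate_add_apply]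
      have h1 : b - a + (a + 1) = b + 1 := by omega
      rw [show b - a + a.succ = b + 1 from h1, Function.iterate_succ_apply', ← h,
        Function.iterate_succ_apply']
    intro x hx y hy hxE hyE hxy
    have hxE' : x ∈ Orb m → x ∉ Per → wf x ∉ Per := fun h1 h2 h3 => hxE ⟨h1, h2, h3⟩
    have hyE' : y ∈ Orb m → y ∉ Per → wf y ∉ Per := fun h1 h2 h3 => hyE ⟨h1, h2, h3⟩
    by_cases hxP : x ∈ Per
    · by_cases hyP : y ∈ Per
      · exact per_inj hxP hyP hxy
      · exact (hyE' (hy.resolve_left hyP) hyP (by rw [← hxy]; exact wf_per hxP)).elim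
    · by_cases hyP : y ∈ Per
      · exact (hxE' (hx.resolve_left hxP) hxP (by rw [hxy]; exact wf_per hyP)).elim
      · obtain ⟨a, ha⟩ := hx.resolve_left hxP
        obtain ⟨b, hb⟩ := hy.resolve_left hyP
        rcases lt_trichotomy a b with h | h | h
        · exact (hxE' ⟨a, ha⟩ hxP
            (by rw [← ha]; exact hlt a b h (by rw [ha, hb]; exact hxy))).elim
        · rw [← ha, ← hb, h]
        · exact (hyE' ⟨b, hb⟩ hyP
            (by rw [← hb]; exact hlt b a h (by rw [ha, hb]; exact hxy.symm))).elim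

theorem union_inv (m : ℕ) : ∀ n ∈ Per ∪ Orb m, wf n ∈ Per ∪ Orb m := by
  rintro n (h | ⟨k, h⟩)
  · exact Or.inl (wf_per h)
  · exact Or.inr ⟨k + 1, by rw [Function.iterate_succ_apply', h]⟩

open Classical in
theorem orbits : ∃ N0 : ℕ, ∀ N : ℕ, N0 ≤ N → ∀ m : ℕ,
    (((Icc 1 N).filter (fun n => (∃ k, 1 ≤ k ∧ wf^[k] n = n) ∨ ∃ k, wf^[k] m = n)).card : ℝ) ≤
      N / 10 ^ 76 := by
  obtain ⟨N0, h⟩ := sparse
  refine ⟨N0, fun N hN m => ?_⟩
  obtain ⟨E, hE, hinj⟩ := union_inj m
  have h1 : (Icc 1 N).filter (fun n => (∃ k, 1 ≤ k ∧ wf^[k] n = n) ∨ ∃ k, wf^[k] m = n) =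
      (Icc 1 N).filter (fun n => n ∈ Per ∪ Orb m) := by
    ext n
    rw [mem_filter, mem_filter]
    rfl
  rw [h1]
  convert h N hN (Per ∪ Orb m) (union_inv m) E hE hinj

end Pool.Agent.H31.SO
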